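import Mathlib

/-!
Binomial identities for part Z of MP_f074b0_an.
-/

set_option autoImplicit false

open Finset

namespace Pool.Agent.R662.PZ

lemma ch_succ (n k : ℕ) : ((k:ℝ) + 1) * (n.choose (k + 1) : ℝ) = ((n:ℝ) - k) * (n.choose k : ℝ) := by
  rcases le_or_gt k n with h | h
  · have := Nat.choose_succ_right_eq n k
    have h2 : ((n.choose (k + 1) * (k + 1) : ℕ) : ℝ) = ((n.choose k * (n - k) : ℕ) : ℝ) := by
      exact_mod_cast this
    push_cast [Nat.cast_sub h] at h2
    linarith
  · rw [Nat.choose_eq_zero_of_lt h, Nat.choose_eq_zero_of_lt (by omega)]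
    simp

lemma ch_up (n k : ℕ) : ((n:ℝ) + 1 - k) * ((n + 1).choose k : ℝ) = ((n:ℝ) + 1) * (n.choose k : ℝ) := by
  rcases le_or_gt k (n + 1) with h | h
  · have := Nat.choose_mul_succ_eq n k
    have h2 : ((n.choose k * (n + 1) : ℕ) : ℝ) = (((n + 1).choose k * (n + 1 - k) : ℕ) : ℝ) := by
      exact_mod_cast this
    push_cast [Nat.cast_sub h] at h2
    linarith
  · rw [Nat.choose_eq_zero_of_lt h, Nat.choose_eq_zero_of_lt (by omega)]
    simp

/-- Riordan's identity -/
lemma riordan (n p : ℕ) : ∀ q K : ℕ, q < K →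
    ∑ k ∈ range K, (p.choose k : ℝ) * (q.choose k) * ((n + k).choose (p + q)) =
      (n.choose p : ℝ) * (n.choose q) := by
  intro q
  induction q with
  | zero =>
    intro K hK
    rw [Finset.sum_eq_single 0]
    · simp
    · intro b _ hb
      rw [Nat.choose_eq_zero_of_lt (Nat.pos_of_ne_zero hb)]
      simp
    · intro h
      exact absurd (mem_range.mpr hK) h
  | succ q ih =>
    intro K hK
    have ih' := ih K (by omega)
    set G : ℕ → ℝ := fun k => -((k:ℝ) * (p.choose k : ℝ) * (if k = 0 then 0 else (q.choose (k - 1) : ℝ)) *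
      ((n + k).choose (p + q + 1) : ℝ)) with hG
    have key : ∀ k, ((q:ℝ) + 1) * ((p.choose k : ℝ) * ((q + 1).choose k) * ((n + k).choose (p + (q + 1)))) -
        ((n:ℝ) - q) * ((p.choose k : ℝ) * (q.choose k) * ((n + k).choose (p + q))) = G (k + 1) - G k := by
      intro k
      have e1 : (((n + (k + 1)).choose (p + q + 1) : ℕ) : ℝ) =
          ((n + k).choose (p + q) : ℝ) + ((n + k).choose (p + q + 1) : ℝ) := by
        rw [show n + (k + 1) = (n + k) + 1 by ring, Nat.choose_succ_succ]
        push_cast; ring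
      have e2 := ch_succ (n + k) (p + q)
      have e3 := ch_succ p k
      push_cast at e2
      rcases k with _ | k
      · simp only [hG, add_tsub_cancel_right, Nat.succ_ne_zero, if_false, if_true, Nat.choose_zero_right, Nat.cast_zero, Nat.cast_one]
        rw [e1]
        simp only [show p + (q + 1) = p + q + 1 by ring, zero_add, Nat.choose_zero_right, Nat.cast_one, add_zero] at e2 e3 ⊢
        linear_combination e2 + (((n).choose (p + q) : ℝ) + ((n).choose (p + q + 1) : ℝ)) * e3
      · have e4 : (((q + 1).choose (k + 1) : ℕ) : ℝ) = (q.choose k : ℝ) + (q.choose (k + 1) : ℝ) := by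
          rw [Nat.choose_succ_succ]; push_cast; ring
        have e5 := ch_succ q k
        simp only [hG, add_tsub_cancel_right, Nat.succ_ne_zero, if_false]
        rw [e1, e4]
        simp only [show p + (q + 1) = p + q + 1 by ring]
        push_cast at e2 e3 e5 ⊢
        linear_combination ((p.choose (k + 1) : ℝ) * (q.choose (k + 1) : ℝ)) * e2 +
          ((q.choose (k + 1) : ℝ) * (((n + (k + 1)).choose (p + q) : ℝ) +
            ((n + (k + 1)).choose (p + q + 1) : ℝ))) * e3 -
          ((p.choose (k + 1) : ℝ) * ((n + (k + 1)).choose (p + q + 1) : ℝ)) * e5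
    have hsum := Finset.sum_congr (rfl : range K = range K) (fun k _ => key k)
    rw [Finset.sum_range_sub, Finset.sum_sub_distrib, ← Finset.mul_sum, ← Finset.mul_sum, ih'] at hsum
    have hG0 : G 0 = 0 := by simp [hG]
    have hGK : G K = 0 := by
      simp only [hG]
      rw [if_neg (by omega), Nat.choose_eq_zero_of_lt (show q < K - 1 by omega)]
      simp
    rw [hG0, hGK] at hsum
    have e6 := ch_succ n q
    have hq : ((q:ℝ) + 1) ≠ 0 := by positivity
    apply mul_left_cancel₀ hq
    linear_combination hsum - (n.choose p : ℝ) * e6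

/-- the sum of the products over a range of upper indices -/
lemma sum_choose_mul (p q K : ℕ) (hq : q < K) : ∀ N : ℕ,
    ∑ j ∈ range (N + 1), (j.choose p : ℝ) * (j.choose q) =
      ∑ k ∈ range K, (p.choose k : ℝ) * (q.choose k) * ((N + 1 + k).choose (p + q + 1)) := by
  intro N
  induction N with
  | zero =>
    have h0 := riordan 0 p q K hq
    rw [Finset.sum_range_one, ← h0]
    refine Finset.sum_congr rfl fun k _ => ?_
    rcases lt_or_ge q k with hk | hk
    · rw [Nat.choose_eq_zero_of_lt hk]; simp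
    rcases lt_or_ge p k with hk' | hk'
    · rw [Nat.choose_eq_zero_of_lt hk']; simp
    have : (0 + 1 + k).choose (p + q + 1) = (0 + k).choose (p + q) := by
      rw [show 0 + 1 + k = (0 + k) + 1 by ring, Nat.choose_succ_succ,
        Nat.choose_eq_zero_of_lt (show 0 + k < (p + q).succ by omega), add_zero]
    rw [this]
  | succ N ih =>
    rw [Finset.sum_range_succ, ih, ← riordan (N + 1) p q K hq, ← Finset.sum_add_distrib]
    refine Finset.sum_congr rfl fun k _ => ?_
    have : (((N + 1 + 1 + k).choose (p + q + 1) : ℕ) : ℝ) =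
        ((N + 1 + k).choose (p + q) : ℝ) + ((N + 1 + k).choose (p + q + 1) : ℝ) := by
      rw [show N + 1 + 1 + k = (N + 1 + k) + 1 by ring, Nat.choose_succ_succ]
      push_cast; ring
    rw [this]; ring

lemma sum_choose_mul' (p q N : ℕ) :
    ∑ j ∈ range (N + 1), (j.choose p : ℝ) * (j.choose q) =
      ∑ k ∈ range (N + 1), (p.choose k : ℝ) * (q.choose k) * ((N + 1 + k).choose (p + q + 1)) := by
  rw [sum_choose_mul p q (max q N + 1) (by omega) N]
  symm
  apply Finset.sum_subset
  · intro x hx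
    rw [mem_range] at hx ⊢
    omega
  · intro k _ hk
    rw [mem_range, not_lt] at hk
    rcases lt_or_ge p k with h | h
    · rw [Nat.choose_eq_zero_of_lt h]; simp
    rcases lt_or_ge q k with h' | h'
    · rw [Nat.choose_eq_zero_of_lt h']; simp
    rw [Nat.choose_eq_zero_of_lt (show N + 1 + k < p + q + 1 by omega)]; simp

lemma anti (a b : ℝ) (hab : a + b = 1) (k n : ℕ) :
    ∑ x ∈ antidiagonal n, (x.1.choose k : ℝ) * (x.2.choose k : ℝ) * a ^ x.1 * b ^ x.2 /
      ((x.1.factorial : ℝ) * (x.2.factorial : ℝ)) =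
    if 2 * k ≤ n then (a * b) ^ k / ((k.factorial : ℝ) ^ 2 * ((n - 2 * k).factorial : ℝ)) else 0 := by
  split_ifs with h
  · obtain ⟨i, rfl⟩ := Nat.exists_eq_add_of_le h
    rw [show 2 * k + i - 2 * k = i by omega]
    have h1 : (a + b) ^ i = ∑ m ∈ antidiagonal i, (i.choose m.1) • (a ^ m.1 * b ^ m.2) :=
      (Commute.all a b).add_pow' i
    rw [hab, one_pow] at h1
    have h2 : (a * b) ^ k / ((k.factorial : ℝ) ^ 2 * (i.factorial : ℝ)) =
        ∑ m ∈ antidiagonal i, (a * b) ^ k / ((k.factorial : ℝ) ^ 2 * (i.factorial : ℝ)) *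
          ((i.choose m.1) • (a ^ m.1 * b ^ m.2)) := by
      rw [← Finset.mul_sum, ← h1, mul_one]
    rw [h2]
    symm
    refine Finset.sum_of_injOn (fun x => (x.1 + k, x.2 + k)) ?_ ?_ ?_ ?_
    · intro x _ y _ hxy
      simp only [Prod.mk.injEq] at hxy
      ext <;> omega
    · intro x hx
      rw [Finset.mem_coe, HasAntidiagonal.mem_antidiagonal] at hx ⊢
      simp only
      omega
    · intro x hx hx2
      rw [HasAntidiagonal.mem_antidiagonal] at hx
      by_cases h3 : k ≤ x.1 ∧ k ≤ x.2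
      · exfalso
        apply hx2
        refine ⟨(x.1 - k, x.2 - k), ?_, ?_⟩
        · rw [Finset.mem_coe, HasAntidiagonal.mem_antidiagonal]
          simp only
          omega
        · ext <;> simp <;> omega
      · rcases not_and_or.mp h3 with h4 | h4
        · rw [Nat.choose_eq_zero_of_lt (not_le.mp h4)]; simp
        · rw [Nat.choose_eq_zero_of_lt (not_le.mp h4)]; simp
    · intro x hx
      rw [HasAntidiagonal.mem_antidiagonal] at hx
      simp only [nsmul_eq_mul]
      rw [Nat.cast_choose ℝ (show x.1 ≤ i by omega), Nat.cast_choose ℝ (show k ≤ x.1 + k by omega),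
        Nat.cast_choose ℝ (show k ≤ x.2 + k by omega), show i - x.1 = x.2 by omega,
        Nat.add_sub_cancel, Nat.add_sub_cancel, pow_add, pow_add, mul_pow]
      have h1 : ((x.1 + k).factorial : ℝ) ≠ 0 := by positivity
      have h2 : ((x.2 + k).factorial : ℝ) ≠ 0 := by positivity
      have h3 : (x.1.factorial : ℝ) ≠ 0 := by positivity
      have h4 : (x.2.factorial : ℝ) ≠ 0 := by positivity
      have h5 : (i.factorial : ℝ) ≠ 0 := by positivity
      have h6 : (k.factorial : ℝ) ≠ 0 := by positivity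
      field_simp
  · apply Finset.sum_eq_zero
    intro x hx
    rw [HasAntidiagonal.mem_antidiagonal] at hx
    by_cases h3 : k ≤ x.1
    · rw [Nat.choose_eq_zero_of_lt (show x.2 < k by omega)]; simp
    · rw [Nat.choose_eq_zero_of_lt (not_le.mp h3)]; simp

lemma alt_rec (K X Y : ℕ) : ∑ i ∈ range (K + 1 + 1), (-1 : ℝ) ^ i * ((K + 1).choose i) * ((X + i).choose Y) =
    (∑ i ∈ range (K + 1), (-1 : ℝ) ^ i * (K.choose i) * ((X + i).choose Y)) -
    ∑ i ∈ range (K + 1), (-1 : ℝ) ^ i * (K.choose i) * ((X + 1 + i).choose Y) := by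
  rw [Finset.sum_range_succ']
  have h5 : ∀ i, (-1 : ℝ) ^ (i + 1) * ((K + 1).choose (i + 1)) * ((X + (i + 1)).choose Y) =
      (-1 : ℝ) ^ (i + 1) * (K.choose (i + 1)) * ((X + (i + 1)).choose Y) -
      (-1 : ℝ) ^ i * (K.choose i) * ((X + 1 + i).choose Y) := by
    intro i
    rw [Nat.choose_succ_succ, show X + (i + 1) = X + 1 + i by ring]
    push_cast; ring
  simp only [h5, Finset.sum_sub_distrib]
  have h6 : ∑ i ∈ range (K + 1), (-1 : ℝ) ^ i * (K.choose i) * ((X + i).choose Y) =
      ∑ i ∈ range (K + 1), (-1 : ℝ) ^ (i + 1) * (K.choose (i + 1)) *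
        ((X + (i + 1)).choose Y) +
      (-1 : ℝ) ^ 0 * (K.choose 0) * ((X + 0).choose Y) := by
    rw [← Finset.sum_range_succ' (fun i => (-1 : ℝ) ^ i * (K.choose i) *
      ((X + i).choose Y)), Finset.sum_range_succ _ (K + 1), Nat.choose_succ_self]
    simp
  rw [h6]
  simp only [Nat.choose_zero_right]
  ring

/-- alternating sum, first form -/
lemma altB2 : ∀ K X Z : ℕ, ∑ i ∈ range (K + 1), (-1 : ℝ) ^ i * (K.choose i) * ((X + i).choose (K + Z)) =
    (-1) ^ K * (X.choose Z) := by
  intro K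
  induction K with
  | zero => intro X Z; simp
  | succ K ih =>
    intro X Z
    have h1 := ih X (Z + 1)
    have h2 := ih (X + 1) (Z + 1)
    have h3 : (((X + 1).choose (Z + 1) : ℕ) : ℝ) = (X.choose Z : ℝ) + (X.choose (Z + 1) : ℝ) := by
      rw [Nat.choose_succ_succ]; push_cast; ring
    rw [alt_rec, show K + 1 + Z = K + (Z + 1) by ring, h1, h2, h3]
    ring

lemma altB2z : ∀ K X Y : ℕ, Y < K →
    ∑ i ∈ range (K + 1), (-1 : ℝ) ^ i * (K.choose i) * ((X + i).choose Y) = 0 := by
  intro K
  induction K with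
  | zero => intro X Y h; exact absurd h (Nat.not_lt_zero _)
  | succ K ih =>
    intro X Y h
    rw [alt_rec]
    rcases Nat.lt_succ_iff_lt_or_eq.mp h with h | h
    · rw [ih X Y h, ih (X + 1) Y h, sub_zero]
    · subst h
      have h1 := altB2 Y X 0
      have h2 := altB2 Y (X + 1) 0
      rw [add_zero] at h1 h2
      rw [h1, h2]
      simp

/-- alternating sum, second form -/
lemma altB3 : ∀ X K A : ℕ, X ≤ A → ∑ j ∈ range (K + 1), (-1 : ℝ) ^ j * ((K + X).choose (X + j)) *
    ((A + j).choose j) = (-1) ^ K * ((A - X).choose K) := by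
  intro X
  induction X with
  | zero =>
    intro K A _
    have h1 : ∀ j, ((A + j).choose j : ℝ) = ((A + j).choose A : ℝ) := by
      intro j
      rw [Nat.choose_symm_add]
    simp only [h1, add_zero, zero_add, Nat.sub_zero]
    rcases le_or_gt K A with h | h
    · obtain ⟨Z, rfl⟩ := Nat.exists_eq_add_of_le h
      rw [altB2, Nat.choose_symm_add]
    · rw [altB2z K A A h, Nat.choose_eq_zero_of_lt h]
      simp
  | succ X ihX =>
    intro K
    induction K with
    | zero => intro A _; simp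
    | succ K ihK =>
      intro A hA
      have h1 := ihX (K + 1) A (by omega)
      have h2 := ihK A hA
      have h3 : ∀ j, (((K + 1 + (X + 1)).choose (X + 1 + j) : ℕ) : ℝ) =
          ((K + 1 + X).choose (X + j) : ℝ) + ((K + (X + 1)).choose (X + 1 + j) : ℝ) := by
        intro j
        rw [show K + 1 + (X + 1) = (K + 1 + X) + 1 by ring, show X + 1 + j = (X + j) + 1 by ring,
          Nat.choose_succ_succ, show K + (X + 1) = K + 1 + X by ring]
        push_cast; ring
      simp only [h3, mul_add, add_mul, Finset.sum_add_distrib]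
      rw [h1, Finset.sum_range_succ _ (K + 1), h2,
        Nat.choose_eq_zero_of_lt (show K + (X + 1) < X + 1 + (K + 1) by omega)]
      obtain ⟨B, hB⟩ : ∃ B, A - X = B + 1 := ⟨A - X - 1, by omega⟩
      rw [show A - (X + 1) = B by omega, hB, Nat.choose_succ_succ]
      push_cast
      ring

lemma inner_sum (l L A : ℕ) (hA : 2 * l + 1 ≤ A) :
    ∑ j ∈ range (L + 1), (-1 : ℝ) ^ j * ((L + (2 * l + 1)).choose (2 * l + 1 + j)) / (j.factorial : ℝ) *
      ((A + j).factorial : ℝ) = (A.factorial : ℝ) * ((-1) ^ L * ((A - (2 * l + 1)).choose L)) := by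
  rw [← altB3 (2 * l + 1) L A hA, Finset.mul_sum]
  refine Finset.sum_congr rfl fun j _ => ?_
  have h := Nat.add_choose_mul_factorial_mul_factorial A j
  have h2 : ((A + j).choose j : ℝ) * (A.factorial : ℝ) * (j.factorial : ℝ) = ((A + j).factorial : ℝ) := by
    exact_mod_cast h
  have hj : (j.factorial : ℝ) ≠ 0 := by positivity
  rw [← h2]
  field_simp

lemma term_eq (k l i K L N : ℕ) (hK : N = k + K) (hL : N = l + L) (hi : i ≤ K) :
    ((K + (2 * k + 1)).choose (2 * k + 1 + i) : ℝ) / (i.factorial : ℝ) *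
      ((2 * k + 2 * l + 2 + i).factorial : ℝ) * ((2 * k + 1 + i).choose L : ℝ) =
    ((N + 1 + k).factorial : ℝ) * ((N + 1 + l).factorial : ℝ) / ((K.factorial : ℝ) * (L.factorial : ℝ)) *
      ((K.choose i : ℝ) * ((2 * k + 2 * l + 2 + i).choose (K + (k + l + 1)) : ℝ)) := by
  rcases lt_or_ge (2 * k + 1 + i) L with h | h
  · rw [Nat.choose_eq_zero_of_lt h,
      Nat.choose_eq_zero_of_lt (show 2 * k + 2 * l + 2 + i < K + (k + l + 1) by omega)]
    simp
  · obtain ⟨t, ht⟩ := Nat.exists_eq_add_of_le h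
    rw [Nat.cast_choose ℝ (show 2 * k + 1 + i ≤ K + (2 * k + 1) by omega), Nat.cast_choose ℝ h,
      Nat.cast_choose ℝ hi, Nat.cast_choose ℝ (show K + (k + l + 1) ≤ 2 * k + 2 * l + 2 + i by omega)]
    rw [show K + (2 * k + 1) - (2 * k + 1 + i) = K - i by omega, show 2 * k + 1 + i - L = t by omega,
      show 2 * k + 2 * l + 2 + i - (K + (k + l + 1)) = t by omega,
      show K + (2 * k + 1) = N + 1 + k by omega, show K + (k + l + 1) = N + 1 + l by omega]
    have h1 : ((N + 1 + k).factorial : ℝ) ≠ 0 := by positivity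
    have h2 : ((N + 1 + l).factorial : ℝ) ≠ 0 := by positivity
    have h3 : (K.factorial : ℝ) ≠ 0 := by positivity
    have h4 : (L.factorial : ℝ) ≠ 0 := by positivity
    have h5 : (i.factorial : ℝ) ≠ 0 := by positivity
    have h6 : (t.factorial : ℝ) ≠ 0 := by positivity
    have h7 : ((K - i).factorial : ℝ) ≠ 0 := by positivity
    have h8 : ((2 * k + 1 + i).factorial : ℝ) ≠ 0 := by positivity
    field_simp

/-- the double alternating sum -/
lemma double_sum (N k l : ℕ) (hk : k ≤ N) (hl : l ≤ N) :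
    ∑ i ∈ range (N - k + 1), ∑ j ∈ range (N - l + 1),
      ((-1 : ℝ) ^ i * ((N + 1 + k).choose (2 * k + 1 + i)) / (i.factorial : ℝ)) *
      ((-1 : ℝ) ^ j * ((N + 1 + l).choose (2 * l + 1 + j)) / (j.factorial : ℝ)) *
      ((2 * k + 2 * l + 2 + i + j).factorial : ℝ) =
    (-1) ^ (k + l) * (((N + 1 + k).factorial : ℝ) / ((N - k).factorial : ℝ)) *
      (((N + 1 + l).factorial : ℝ) / ((N - l).factorial : ℝ)) *
      ((2 * (k + l) + 2).choose (k + l + 1) : ℝ) := by
  obtain ⟨K, hK⟩ := Nat.exists_eq_add_of_le hk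
  obtain ⟨L, hL⟩ := Nat.exists_eq_add_of_le hl
  rw [show N - k = K by omega, show N - l = L by omega]
  have h1 : ∀ i, ∑ j ∈ range (L + 1),
      ((-1 : ℝ) ^ i * ((N + 1 + k).choose (2 * k + 1 + i)) / (i.factorial : ℝ)) *
      ((-1 : ℝ) ^ j * ((N + 1 + l).choose (2 * l + 1 + j)) / (j.factorial : ℝ)) *
      ((2 * k + 2 * l + 2 + i + j).factorial : ℝ) =
      ((-1 : ℝ) ^ i * ((N + 1 + k).choose (2 * k + 1 + i)) / (i.factorial : ℝ)) *
      (((2 * k + 2 * l + 2 + i).factorial : ℝ) * ((-1) ^ L * ((2 * k + 1 + i).choose L))) := by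
    intro i
    have h2 := inner_sum l L (2 * k + 2 * l + 2 + i) (by omega)
    rw [show L + (2 * l + 1) = N + 1 + l by omega,
      show 2 * k + 2 * l + 2 + i - (2 * l + 1) = 2 * k + 1 + i by omega] at h2
    rw [← h2, Finset.mul_sum]
    refine Finset.sum_congr rfl fun j _ => ?_
    ring
  simp only [h1]
  have h3 : ∀ i ∈ range (K + 1), ((-1 : ℝ) ^ i * ((N + 1 + k).choose (2 * k + 1 + i)) / (i.factorial : ℝ)) *
      (((2 * k + 2 * l + 2 + i).factorial : ℝ) * ((-1) ^ L * ((2 * k + 1 + i).choose L))) =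
      (-1) ^ L * (((N + 1 + k).factorial : ℝ) * ((N + 1 + l).factorial : ℝ) /
        ((K.factorial : ℝ) * (L.factorial : ℝ))) *
      ((-1 : ℝ) ^ i * (K.choose i : ℝ) * ((2 * k + 2 * l + 2 + i).choose (K + (k + l + 1)) : ℝ)) := by
    intro i hi
    have h4 := term_eq k l i K L N hK hL (by rw [mem_range] at hi; omega)
    rw [show K + (2 * k + 1) = N + 1 + k by omega] at h4
    linear_combination ((-1 : ℝ) ^ i * (-1) ^ L) * h4
  rw [Finset.sum_congr rfl h3, ← Finset.mul_sum, altB2]
  have h5 : (-1 : ℝ) ^ L * (-1) ^ K = (-1) ^ (k + l) := by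
    rw [← pow_add]
    have : L + K + (k + l) = 2 * N := by omega
    have h6 : (-1 : ℝ) ^ (L + K) * (-1) ^ (k + l) = 1 := by
      rw [← pow_add, this]; simp
    rcases neg_one_pow_eq_or ℝ (k + l) with h | h
    · rw [h] at h6 ⊢; linarith
    · rw [h] at h6 ⊢; linarith
  rw [← h5, show 2 * (k + l) + 2 = 2 * k + 2 * l + 2 by ring]
  have h3 : (K.factorial : ℝ) ≠ 0 := by positivity
  have h4 : (L.factorial : ℝ) ≠ 0 := by positivity
  field_simp

end Pool.Agent.R662.PZ
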