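import Pool.Agent.R662.PZ.Pol

/-!
Beta integral and positivity for part Z of MP_f074b0_an.
-/

set_option autoImplicit false

open Finset Polynomial MeasureTheory
open scoped ComplexConjugate

namespace Pool.Agent.R662.PZ

open Pool.Agent.R283.PT (kap)

noncomputable section

/-- the weight -/
def Wt (τ x : ℝ) : ℂ := (x : ℂ) ^ (-(τ * Complex.I) : ℂ) * (1 - (x : ℂ)) ^ ((τ * Complex.I) : ℂ)

lemma cpow_split (z : ℂ) (n : ℕ) (τ : ℝ) : z ^ ((n : ℂ) + τ * Complex.I) = z ^ ((τ : ℂ) * Complex.I) * z ^ n := by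
  by_cases hz : z = 0
  · subst hz
    rcases n with _ | n
    · simp
    · rw [Complex.zero_cpow, zero_pow (Nat.succ_ne_zero n), mul_zero]
      intro h
      have := congrArg Complex.re h
      simp at this
      have h2 : (0:ℝ) ≤ n := Nat.cast_nonneg n
      linarith
  · rw [Complex.cpow_add _ _ hz, Complex.cpow_natCast, mul_comm]

lemma W_mul (τ x : ℝ) (i j : ℕ) : Wt τ x * ((x ^ i * (1 - x) ^ j : ℝ) : ℂ) =
    (x : ℂ) ^ (((i : ℂ) + 1 - τ * Complex.I) - 1) * (1 - (x : ℂ)) ^ (((j : ℂ) + 1 + τ * Complex.I) - 1) := by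
  have h1 := cpow_split (x : ℂ) i (-τ)
  have h2 := cpow_split (1 - (x : ℂ)) j τ
  rw [show ((i : ℂ) + 1 - τ * Complex.I) - 1 = (i : ℂ) + ((-τ : ℝ) : ℂ) * Complex.I by push_cast; ring,
    show ((j : ℂ) + 1 + τ * Complex.I) - 1 = (j : ℂ) + τ * Complex.I by ring, h1, h2, Wt]
  rw [show ((-τ : ℝ) : ℂ) * Complex.I = -(τ * Complex.I) by push_cast; ring]
  push_cast
  ring

/-- integral against the weight -/
def HP (τ : ℝ) (F : ℝ → ℝ) (v : ℂ) : Prop :=
  IntervalIntegrable (fun x => Wt τ x * (F x : ℂ)) volume 0 1 ∧ ∫ x in (0:ℝ)..1, Wt τ x * (F x : ℂ) = v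

lemma HP.add {τ : ℝ} {F G : ℝ → ℝ} {v w : ℂ} (h1 : HP τ F v) (h2 : HP τ G w) :
    HP τ (fun x => F x + G x) (v + w) := by
  have h : (fun x => Wt τ x * ((F x + G x : ℝ) : ℂ)) =
      fun x => Wt τ x * (F x : ℂ) + Wt τ x * (G x : ℂ) := by
    funext x; push_cast; ring
  refine ⟨?_, ?_⟩
  · rw [h]; exact h1.1.add h2.1
  · rw [h, intervalIntegral.integral_add h1.1 h2.1, h1.2, h2.2]

lemma HP.smul {τ : ℝ} {F : ℝ → ℝ} {v : ℂ} (c : ℝ) (h1 : HP τ F v) :
    HP τ (fun x => c * F x) (c * v) := by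
  have h : (fun x => Wt τ x * ((c * F x : ℝ) : ℂ)) =
      fun x => (c : ℂ) * (Wt τ x * (F x : ℂ)) := by
    funext x; push_cast; ring
  refine ⟨?_, ?_⟩
  · rw [h]; exact h1.1.const_mul _
  · rw [h, intervalIntegral.integral_const_mul, h1.2]

lemma HP.zero (τ : ℝ) : HP τ (fun _ => 0) 0 := by
  constructor
  · simp
  · simp

lemma HP.sum {τ : ℝ} {ι : Type} (s : Finset ι) (F : ι → ℝ → ℝ) (v : ι → ℂ)
    (h : ∀ i ∈ s, HP τ (F i) (v i)) : HP τ (fun x => ∑ i ∈ s, F i x) (∑ i ∈ s, v i) := by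
  classical
  induction s using Finset.induction_on with
  | empty => simpa using HP.zero τ
  | insert a s ha ih =>
    simp only [Finset.sum_insert ha]
    exact (h a (mem_insert_self a s)).add (ih fun i hi => h i (mem_insert_of_mem hi))

lemma HP.unique {τ : ℝ} {F : ℝ → ℝ} {v w : ℂ} (h1 : HP τ F v) (h2 : HP τ F w) : v = w := by
  rw [← h1.2, h2.2]

/-- the moments -/
def gam (τ : ℝ) (n : ℕ) : ℂ := Complex.Gamma ((n : ℂ) + 1 + τ * Complex.I)

lemma gam_conj (τ : ℝ) (n : ℕ) : Complex.Gamma ((n : ℂ) + 1 - τ * Complex.I) = conj (gam τ n) := by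
  rw [gam, ← Complex.Gamma_conj]
  congr 1
  simp [sub_eq_add_neg]

lemma HP.mono (τ : ℝ) (i j : ℕ) : HP τ (fun x => x ^ i * (1 - x) ^ j)
    (conj (gam τ i) * gam τ j / ((i + j + 1).factorial : ℂ)) := by
  have hre1 : 0 < ((i : ℂ) + 1 - τ * Complex.I).re := by
    simp; positivity
  have hre2 : 0 < ((j : ℂ) + 1 + τ * Complex.I).re := by
    simp; positivity
  constructor
  · simp only [W_mul]
    exact Complex.betaIntegral_convergent hre1 hre2
  · simp only [W_mul]
    have h := Complex.Gamma_mul_Gamma_eq_betaIntegral hre1 hre2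
    have h3 : Complex.Gamma (((i : ℂ) + 1 - τ * Complex.I) + ((j : ℂ) + 1 + τ * Complex.I)) =
        ((i + j + 1).factorial : ℂ) := by
      rw [← Complex.Gamma_nat_eq_factorial]
      congr 1
      push_cast
      ring
    rw [h3, gam_conj] at h
    rw [show gam τ j = Complex.Gamma ((j : ℂ) + 1 + τ * Complex.I) from rfl, h]
    have h4 : ((i + j + 1).factorial : ℂ) ≠ 0 := by exact_mod_cast Nat.factorial_ne_zero _
    rw [mul_div_cancel_left₀ _ h4]
    rfl

/-- the moment functional -/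
def Mf (τ : ℝ) : ℝ[X] →ₗ[ℝ] ℂ := Polynomial.lsum fun n => LinearMap.toSpanSingleton ℝ ℂ (gam τ n)

lemma Mf_mono (τ : ℝ) (n : ℕ) (c : ℝ) : Mf τ (C c * X ^ n) = c * gam τ n := by
  rw [Polynomial.C_mul_X_pow_eq_monomial, Mf, Polynomial.lsum_apply, Polynomial.sum_monomial_index]
  · simp
  · simp

lemma HP.bilin (τ : ℝ) (p q : ℝ[X]) : HP τ (fun x => Ef (X * p.comp (C x * X) * q.comp (C (1 - x) * X)))
    (conj (Mf τ p) * Mf τ q) := by
  induction p using Polynomial.induction_on' with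
  | add p1 p2 h1 h2 =>
    have h3 := h1.add h2
    have h4 : (fun x : ℝ => Ef (X * (p1 + p2).comp (C x * X) * q.comp (C (1 - x) * X))) =
        fun x => Ef (X * p1.comp (C x * X) * q.comp (C (1 - x) * X)) +
          Ef (X * p2.comp (C x * X) * q.comp (C (1 - x) * X)) := by
      funext x
      rw [← map_add, add_comp]
      congr 1; ring
    rw [h4, map_add, map_add, add_mul]
    exact h3
  | monomial i c =>
    induction q using Polynomial.induction_on' with
    | add p1 p2 h1 h2 =>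
      have h3 := h1.add h2
      have h4 : (fun x : ℝ => Ef (X * (monomial i c).comp (C x * X) * (p1 + p2).comp (C (1 - x) * X))) =
          fun x => Ef (X * (monomial i c).comp (C x * X) * p1.comp (C (1 - x) * X)) +
            Ef (X * (monomial i c).comp (C x * X) * p2.comp (C (1 - x) * X)) := by
        funext x
        rw [← map_add, add_comp]
        congr 1; ring
      rw [h4, map_add, mul_add]
      exact h3
    | monomial j d =>
      have h := (HP.mono τ i j).smul (c * d * ((i + j + 1).factorial : ℝ))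
      have h4 : (fun x : ℝ => Ef (X * (monomial i c).comp (C x * X) * (monomial j d).comp (C (1 - x) * X))) =
          fun x => (c * d * ((i + j + 1).factorial : ℝ)) * (x ^ i * (1 - x) ^ j) := by
        funext x
        have h5 : X * (monomial i c).comp (C x * X) * (monomial j d).comp (C (1 - x) * X) =
            C (c * d * (x ^ i * (1 - x) ^ j)) * X ^ (i + j + 1) := by
          rw [← C_mul_X_pow_eq_monomial, ← C_mul_X_pow_eq_monomial, mul_comp, mul_comp, C_comp, C_comp,
            X_pow_comp, X_pow_comp, mul_pow, mul_pow, C_mul, C_mul, C_mul, C_pow, C_pow, pow_add, pow_add]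
          ring
        rw [h5, Ef_mono]
        ring
      rw [h4, ← C_mul_X_pow_eq_monomial, ← C_mul_X_pow_eq_monomial, Mf_mono, Mf_mono]
      convert h using 1
      have h6 : ((i + j + 1).factorial : ℂ) ≠ 0 := by exact_mod_cast Nat.factorial_ne_zero _
      push_cast
      rw [map_mul, Complex.conj_ofReal]
      field_simp

/-- the polynomials in the sum of squares -/
def qq (j k : ℕ) : ℝ[X] := Lag j * (Lag k - Lag (k + 1))

lemma conj_mul_self' (z : ℂ) : conj z * z = ((‖z‖ ^ 2 : ℝ) : ℂ) := by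
  rw [mul_comm, Complex.mul_conj, Complex.normSq_eq_norm_sq]

lemma rhs_HP (τ : ℝ) (N : ℕ) : HP τ (fun x => Ef (X * ww x (1 - x) N * gg x (1 - x) N))
    ((∑ j ∈ range (N + 1), (∑ k ∈ range N, ((k:ℝ) + 1) * ‖Mf τ (qq j k)‖ ^ 2 +
      ((N:ℝ) + 1) * ‖Mf τ (Lag j * Lag N)‖ ^ 2) : ℝ) : ℂ) := by
  have h1 : (fun x : ℝ => Ef (X * ww x (1 - x) N * gg x (1 - x) N)) =
      fun x => ∑ j ∈ range (N + 1), (∑ k ∈ range N, ((k:ℝ) + 1) *
        Ef (X * (qq j k).comp (C x * X) * (qq j k).comp (C (1 - x) * X)) +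
        ((N:ℝ) + 1) * Ef (X * (Lag j * Lag N).comp (C x * X) * (Lag j * Lag N).comp (C (1 - x) * X))) := by
    funext x
    have h2 : X * ww x (1 - x) N * gg x (1 - x) N = ∑ j ∈ range (N + 1), (∑ k ∈ range N, ((k:ℝ) + 1) •
        (X * (qq j k).comp (C x * X) * (qq j k).comp (C (1 - x) * X)) +
        ((N:ℝ) + 1) • (X * (Lag j * Lag N).comp (C x * X) * (Lag j * Lag N).comp (C (1 - x) * X))) := by
      rw [ww, Finset.mul_sum, Finset.sum_mul]
      refine Finset.sum_congr rfl fun j _ => ?_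
      rw [gg, mul_add, Finset.mul_sum]
      congr 1
      · refine Finset.sum_congr rfl fun k _ => ?_
        rw [smul_eq_C_mul, qq, mul_comp, mul_comp, sub_comp, sub_comp]
        unfold Lc
        ring
      · rw [smul_eq_C_mul, mul_comp, mul_comp]
        unfold Lc
        ring
    rw [h2, map_sum]
    refine Finset.sum_congr rfl fun j _ => ?_
    rw [map_add, map_sum, map_smul, smul_eq_mul]
    congr 1
    refine Finset.sum_congr rfl fun k _ => ?_
    rw [map_smul, smul_eq_mul]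
  rw [h1, Complex.ofReal_sum]
  refine HP.sum _ _ _ fun j _ => ?_
  rw [Complex.ofReal_add, Complex.ofReal_sum]
  refine HP.add (HP.sum _ _ _ fun k _ => ?_) ?_
  · rw [Complex.ofReal_mul, ← conj_mul_self']
    exact (HP.bilin τ _ _).smul _
  · rw [Complex.ofReal_mul, ← conj_mul_self']
    exact (HP.bilin τ _ _).smul _

lemma lhs_HP (τ : ℝ) (N : ℕ) : HP τ (fun x => ∑ k ∈ range (N + 1), ∑ l ∈ range (N + 1),
      kap N k * kap N l * ((2 * (k + l) + 2).choose (k + l + 1) : ℝ) * (x * (1 - x)) ^ (k + l))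
    ((2 * ∑ k ∈ range (N + 1), ∑ l ∈ range (N + 1), kap N k * kap N l * ‖gam τ (k + l)‖ ^ 2 /
      (((k + l).factorial : ℝ) * ((k + l + 1).factorial : ℝ)) : ℝ) : ℂ) := by
  rw [Finset.mul_sum, Complex.ofReal_sum]
  refine HP.sum _ _ _ fun k _ => ?_
  rw [Finset.mul_sum, Complex.ofReal_sum]
  refine HP.sum _ _ _ fun l _ => ?_
  have h := (HP.mono τ (k + l) (k + l)).smul
    (kap N k * kap N l * ((2 * (k + l) + 2).choose (k + l + 1) : ℝ))
  have h1 : (fun x : ℝ => kap N k * kap N l * ((2 * (k + l) + 2).choose (k + l + 1) : ℝ) *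
      (x * (1 - x)) ^ (k + l)) = fun x => kap N k * kap N l *
        ((2 * (k + l) + 2).choose (k + l + 1) : ℝ) * (x ^ (k + l) * (1 - x) ^ (k + l)) := by
    funext x; rw [mul_pow]
  rw [h1]
  convert h using 1
  rw [conj_mul_self', ← Complex.ofReal_natCast, ← Complex.ofReal_div, ← Complex.ofReal_mul]
  congr 1
  set m := k + l
  rw [Nat.cast_choose ℝ (show m + 1 ≤ 2 * m + 2 by omega), show 2 * m + 2 - (m + 1) = m + 1 by omega,
    show 2 * m + 2 = (m + m + 1) + 1 by ring, Nat.factorial_succ (m + m + 1), Nat.factorial_succ m]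
  have h2 : ((m + m + 1).factorial : ℝ) ≠ 0 := by positivity
  have h3 : (m.factorial : ℝ) ≠ 0 := by positivity
  push_cast
  field_simp
  ring

/-- the positivity statement -/
theorem pos_main (N : ℕ) (τ : ℝ) :
    0 < ∑ k ∈ range (N + 1), ∑ l ∈ range (N + 1), kap N k * kap N l * ‖gam τ (k + l)‖ ^ 2 /
      (((k + l).factorial : ℝ) * ((k + l + 1).factorial : ℝ)) := by
  have h1 := lhs_HP τ N
  have h2 := (rhs_HP τ N).smul 2
  have h3 : (fun x : ℝ => ∑ k ∈ range (N + 1), ∑ l ∈ range (N + 1),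
      kap N k * kap N l * ((2 * (k + l) + 2).choose (k + l + 1) : ℝ) * (x * (1 - x)) ^ (k + l)) =
      fun x => 2 * Ef (X * ww x (1 - x) N * gg x (1 - x) N) := by
    funext x
    rw [h4d x (1 - x) (by ring) N, h4g x (1 - x) (by ring) N]
  rw [h3] at h1
  have h4 := h1.unique h2
  rw [← Complex.ofReal_mul] at h4
  have h5 := Complex.ofReal_injective h4
  have h6 : 0 < ∑ j ∈ range (N + 1), (∑ k ∈ range N, ((k:ℝ) + 1) * ‖Mf τ (qq j k)‖ ^ 2 +
      ((N:ℝ) + 1) * ‖Mf τ (Lag j * Lag N)‖ ^ 2) := by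
    have hnn : ∀ j, 0 ≤ (∑ k ∈ range N, ((k:ℝ) + 1) * ‖Mf τ (qq j k)‖ ^ 2 +
      ((N:ℝ) + 1) * ‖Mf τ (Lag j * Lag N)‖ ^ 2) := fun j => by positivity
    rcases (hnn 0).eq_or_lt with h0 | h0
    · exfalso
      have h7 : ∑ k ∈ range N, ((k:ℝ) + 1) * ‖Mf τ (qq 0 k)‖ ^ 2 = 0 := by
        have a1 : 0 ≤ ∑ k ∈ range N, ((k:ℝ) + 1) * ‖Mf τ (qq 0 k)‖ ^ 2 := by positivity
        have a2 : 0 ≤ ((N:ℝ) + 1) * ‖Mf τ (Lag 0 * Lag N)‖ ^ 2 := by positivity
        linarith
      have h8 : ((N:ℝ) + 1) * ‖Mf τ (Lag 0 * Lag N)‖ ^ 2 = 0 := by linarith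
      have h9 : Mf τ (Lag N) = 0 := by
        have hN : ((N:ℝ) + 1) ≠ 0 := by positivity
        have := (mul_eq_zero.mp h8).resolve_left hN
        have := pow_eq_zero_iff (two_ne_zero) |>.mp this
        rw [norm_eq_zero, Lag_zero, one_mul] at this
        exact this
      rw [Finset.sum_eq_zero_iff_of_nonneg (fun k _ => by positivity)] at h7
      have h10 : ∀ k, k < N → Mf τ (Lag k) = Mf τ (Lag (k + 1)) := by
        intro k hk
        have b1 := h7 k (mem_range.mpr hk)
        have hN : ((k:ℝ) + 1) ≠ 0 := by positivity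
        have := (mul_eq_zero.mp b1).resolve_left hN
        have := pow_eq_zero_iff (two_ne_zero) |>.mp this
        rw [norm_eq_zero, qq, Lag_zero, one_mul, map_sub, sub_eq_zero] at this
        exact this
      have h11 : ∀ d, d ≤ N → Mf τ (Lag (N - d)) = 0 := by
        intro d
        induction d with
        | zero => intro _; exact h9
        | succ d ih =>
          intro hd
          rw [h10 (N - (d + 1)) (by omega), show N - (d + 1) + 1 = N - d by omega]
          exact ih (by omega)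
      have h12 := h11 N le_rfl
      rw [Nat.sub_self, Lag_zero] at h12
      have h13 := Mf_mono τ 0 1
      simp only [C_1, pow_zero, mul_one, Complex.ofReal_one, one_mul] at h13
      rw [h13, gam] at h12
      refine Complex.Gamma_ne_zero_of_re_pos ?_ h12
      simp
    · exact Finset.sum_pos' (fun j _ => hnn j) ⟨0, mem_range.mpr (Nat.succ_pos N), h0⟩
  linarith

end

end Pool.Agent.R662.PZ
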