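import Pool.Agent.R662.PZ.Comb
import Pool.Agent.R283.PT.Defs

/-!
Polynomial identities for part Z of MP_f074b0_an.
-/

set_option autoImplicit false

open Finset Polynomial

namespace Pool.Agent.R662.PZ

open Pool.Agent.R283.PT (kap)

noncomputable section

/-- the functional with `X ^ n ↦ n!` -/
def Ef : ℝ[X] →ₗ[ℝ] ℝ := Polynomial.lsum fun n => (n.factorial : ℝ) • LinearMap.id

lemma Ef_mono (n : ℕ) (c : ℝ) : Ef (C c * X ^ n) = c * (n.factorial : ℝ) := by
  rw [Polynomial.C_mul_X_pow_eq_monomial, Ef, Polynomial.lsum_apply, Polynomial.sum_monomial_index]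
  · simp [mul_comm]
  · simp

lemma Ef_X_pow (n : ℕ) : Ef (X ^ n) = (n.factorial : ℝ) := by
  have := Ef_mono n 1
  simpa using this

lemma Ef_deriv (p : ℝ[X]) : Ef (derivative p - p) = - p.eval 0 := by
  induction p using Polynomial.induction_on' with
  | add p q hp hq =>
    rw [derivative_add, eval_add, show derivative p + derivative q - (p + q) =
      (derivative p - p) + (derivative q - q) by ring, map_add, hp, hq]
    ring
  | monomial n c =>
    rw [map_sub, derivative_monomial, ← C_mul_X_pow_eq_monomial, ← C_mul_X_pow_eq_monomial, Ef_mono,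
      Ef_mono]
    rcases n with _ | n
    · simp
    · simp [Nat.factorial_succ]
      ring

/-- Laguerre polynomials -/
def Lag (j : ℕ) : ℝ[X] := ∑ p ∈ range (j + 1), C ((-1) ^ p * (j.choose p : ℝ) / (p.factorial : ℝ)) * X ^ p

lemma Lag_coeff (j n : ℕ) : (Lag j).coeff n = (-1) ^ n * (j.choose n : ℝ) / (n.factorial : ℝ) := by
  rw [Lag, finsetSum_coeff]
  simp only [coeff_C_mul_X_pow]
  rw [Finset.sum_ite_eq]
  split_ifs with h
  · rfl
  · rw [mem_range, not_lt] at h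
    rw [Nat.choose_eq_zero_of_lt (by omega)]
    simp

lemma Lag_zero : Lag 0 = 1 := by simp [Lag]

lemma Lag_rec (k : ℕ) : X * Lag (k + 1) = C (2 * (k:ℝ) + 3) * Lag (k + 1) - C ((k:ℝ) + 2) * Lag (k + 2) -
    C ((k:ℝ) + 1) * Lag k := by
  ext n
  rw [coeff_sub, coeff_sub, coeff_C_mul, coeff_C_mul, coeff_C_mul, Lag_coeff, Lag_coeff, Lag_coeff]
  rcases n with _ | n
  · simp; ring
  · rw [mul_comm X, coeff_mul_X, Lag_coeff]
    have h1 : (((k + 2).choose (n + 1) : ℕ) : ℝ) = ((k + 1).choose n : ℝ) + (k.choose n : ℝ) +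
        (k.choose (n + 1) : ℝ) := by
      rw [Nat.choose_succ_succ, Nat.choose_succ_succ k]; push_cast; ring
    have h2 : (((k + 1).choose (n + 1) : ℕ) : ℝ) = (k.choose n : ℝ) + (k.choose (n + 1) : ℝ) := by
      rw [Nat.choose_succ_succ]; push_cast; ring
    have h3 := ch_up k n
    rw [h1, h2, Nat.factorial_succ]
    have hn : (n.factorial : ℝ) ≠ 0 := by positivity
    have hn1 : ((n:ℝ) + 1) ≠ 0 := by positivity
    push_cast
    field_simp
    rw [pow_succ]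
    linear_combination (-(-1 : ℝ) ^ n) * h3

lemma Lag_rec0 : X * Lag 0 = Lag 0 - Lag 1 := by
  rw [Lag_zero, Lag]
  simp [Finset.sum_range_succ]

lemma Lag_der (k : ℕ) : X * derivative (Lag (k + 1)) = C ((k:ℝ) + 1) * (Lag (k + 1) - Lag k) := by
  ext n
  rw [coeff_C_mul, coeff_sub, Lag_coeff, Lag_coeff]
  rcases n with _ | n
  · simp
  · rw [mul_comm X, coeff_mul_X, coeff_derivative, Lag_coeff]
    have h3 := ch_up k (n + 1)
    push_cast at h3 ⊢
    linear_combination ((-1 : ℝ) ^ (n + 1) / ((n + 1).factorial : ℝ)) * (-h3)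

lemma C2 : (C (2:ℝ) : ℝ[X]) = 2 := map_ofNat C 2

lemma C3 : (C (3:ℝ) : ℝ[X]) = 3 := map_ofNat C 3

/-- `L_j (a ρ)` -/
def Lc (a : ℝ) (j : ℕ) : ℝ[X] := (Lag j).comp (C a * X)

lemma Lc_zero (a : ℝ) : Lc a 0 = 1 := by simp [Lc, Lag_zero]

lemma Lc_coeff (a : ℝ) (j n : ℕ) : (Lc a j).coeff n =
    (-1) ^ n * (j.choose n : ℝ) / (n.factorial : ℝ) * a ^ n := by
  rw [Lc, comp_C_mul_X_coeff, Lag_coeff]

lemma Lc_rec (a : ℝ) (k : ℕ) : C a * X * Lc a (k + 1) = C (2 * (k:ℝ) + 3) * Lc a (k + 1) -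
    C ((k:ℝ) + 2) * Lc a (k + 2) - C ((k:ℝ) + 1) * Lc a k := by
  have h := congrArg (fun p : ℝ[X] => p.comp (C a * X)) (Lag_rec k)
  simpa [Lc, mul_comp, sub_comp] using h

lemma Lc_rec0 (a : ℝ) : C a * X = 1 - Lc a 1 := by
  have h := congrArg (fun p : ℝ[X] => p.comp (C a * X)) Lag_rec0
  simpa [Lc, mul_comp, sub_comp, Lag_zero] using h

lemma Lc_der (a : ℝ) (k : ℕ) : X * derivative (Lc a (k + 1)) = C ((k:ℝ) + 1) * (Lc a (k + 1) - Lc a k) := by
  have h := congrArg (fun p : ℝ[X] => p.comp (C a * X)) (Lag_der k)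
  simp only [mul_comp, sub_comp, C_comp, X_comp] at h
  unfold Lc
  rw [← h, derivative_comp]
  simp
  ring

/-- the kernel `D` along a ray -/
def ww (a b : ℝ) (N : ℕ) : ℝ[X] := ∑ j ∈ range (N + 1), Lc a j * Lc b j

/-- `G / 2` along a ray -/
def gg (a b : ℝ) (N : ℕ) : ℝ[X] := ∑ k ∈ range N, C ((k:ℝ) + 1) * ((Lc a k - Lc a (k + 1)) * (Lc b k - Lc b (k + 1))) +
  C ((N:ℝ) + 1) * (Lc a N * Lc b N)

/-- the cross term -/
def cr (a b : ℝ) (N : ℕ) : ℝ[X] := Lc a N * Lc b (N + 1) + Lc a (N + 1) * Lc b N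

lemma h4a (a b : ℝ) (hab : a + b = 1) (N : ℕ) :
    X * ww a b N = 2 * gg a b N - C ((N:ℝ) + 1) * cr a b N := by
  have hX : (X : ℝ[X]) = C a * X + C b * X := by
    rw [← add_mul, ← C_add, hab, C_1, one_mul]
  induction N with
  | zero =>
    rw [ww, gg, cr, Finset.sum_range_one, Finset.sum_range_zero, Lc_zero, Lc_zero]
    have h1 := Lc_rec0 a
    have h2 := Lc_rec0 b
    simp only [Nat.cast_zero, zero_add, C_1]
    linear_combination hX + h1 + h2
  | succ N ih =>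
    have e1 : ww a b (N + 1) = ww a b N + Lc a (N + 1) * Lc b (N + 1) := by
      rw [ww, Finset.sum_range_succ]; rfl
    have e2 : gg a b (N + 1) = gg a b N - C ((N:ℝ) + 1) * (Lc a N * Lc b N) +
        C ((N:ℝ) + 1) * ((Lc a N - Lc a (N + 1)) * (Lc b N - Lc b (N + 1))) +
        C ((N:ℝ) + 2) * (Lc a (N + 1) * Lc b (N + 1)) := by
      rw [gg, gg, Finset.sum_range_succ]
      push_cast
      rw [show (N:ℝ) + 1 + 1 = N + 2 by ring]
      ring
    have h1 := Lc_rec a N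
    have h2 := Lc_rec b N
    rw [e1, e2]
    have hC1 : (C ((N:ℝ) + 1) : ℝ[X]) = C (N:ℝ) + 1 := by simp
    have hC2 : (C ((N:ℝ) + 2) : ℝ[X]) = C (N:ℝ) + 2 := by simp [C2]
    have hC3 : (C (2 * (N:ℝ) + 3) : ℝ[X]) = 2 * C (N:ℝ) + 3 := by simp [C2, C3]
    have hC4 : (C (((N + 1 : ℕ):ℝ) + 1) : ℝ[X]) = C (N:ℝ) + 2 := by push_cast; simp; ring
    rw [hC1] at ih h1 h2
    rw [hC2, hC3] at h1 h2
    rw [hC1, hC2, hC4]
    unfold cr at ih ⊢
    linear_combination ih + (Lc a (N + 1) * Lc b (N + 1)) * hX + Lc b (N + 1) * h1 + Lc a (N + 1) * h2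

lemma h4b (a b : ℝ) (hab : a + b = 1) (N : ℕ) :
    2 * (X * derivative (ww a b N) + ww a b N) - X * ww a b N = C ((N:ℝ) + 1) * cr a b N := by
  have hX : (X : ℝ[X]) = C a * X + C b * X := by
    rw [← add_mul, ← C_add, hab, C_1, one_mul]
  induction N with
  | zero =>
    rw [ww, cr, Finset.sum_range_one, Lc_zero, Lc_zero]
    have h1 := Lc_rec0 a
    have h2 := Lc_rec0 b
    simp only [Nat.cast_zero, zero_add, C_1, mul_one, derivative_one, mul_zero]
    linear_combination -hX - h1 - h2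
  | succ N ih =>
    have e1 : ww a b (N + 1) = ww a b N + Lc a (N + 1) * Lc b (N + 1) := by
      rw [ww, Finset.sum_range_succ]; rfl
    have h1 := Lc_rec a N
    have h2 := Lc_rec b N
    have h3 := Lc_der a N
    have h4 := Lc_der b N
    rw [e1, derivative_add, derivative_mul]
    have hC1 : (C ((N:ℝ) + 1) : ℝ[X]) = C (N:ℝ) + 1 := by simp
    have hC2 : (C ((N:ℝ) + 2) : ℝ[X]) = C (N:ℝ) + 2 := by simp [C2]
    have hC3 : (C (2 * (N:ℝ) + 3) : ℝ[X]) = 2 * C (N:ℝ) + 3 := by simp [C2, C3]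
    have hC4 : (C (((N + 1 : ℕ):ℝ) + 1) : ℝ[X]) = C (N:ℝ) + 2 := by push_cast; simp; ring
    rw [hC1] at ih h1 h2 h3 h4
    rw [hC2, hC3] at h1 h2
    rw [hC4]
    unfold cr at ih ⊢
    linear_combination ih - (Lc a (N + 1) * Lc b (N + 1)) * hX - Lc b (N + 1) * h1 - Lc a (N + 1) * h2 +
      2 * Lc b (N + 1) * h3 + 2 * Lc a (N + 1) * h4

lemma h4d (a b : ℝ) (hab : a + b = 1) (N : ℕ) :
    2 * Ef (X * ww a b N * gg a b N) = Ef (X ^ 2 * ww a b N ^ 2) := by
  have h1 := h4a a b hab N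
  have h2 := h4b a b hab N
  set w := ww a b N
  have h3 : X * w * (2 * gg a b N) = X ^ 2 * w ^ 2 + (derivative (X ^ 2 * w ^ 2) - X ^ 2 * w ^ 2) := by
    have h4 : derivative (X ^ 2 * w ^ 2) = 2 * X * w ^ 2 + X ^ 2 * (2 * w * derivative w) := by
      simp [derivative_mul, derivative_pow, C2]
    rw [h4]
    linear_combination (-X * w) * h1 - X * w * h2
  have h5 : 2 * Ef (X * w * gg a b N) = Ef (X * w * (2 * gg a b N)) := by
    rw [show X * w * (2 * gg a b N) = (2:ℝ) • (X * w * gg a b N) by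
      rw [smul_eq_C_mul, C2]; ring, map_smul, smul_eq_mul]
  rw [h5, h3, map_add, Ef_deriv]
  simp

/-- `L^{(2k+1)}_{N-k}` -/
def Qk (N k : ℕ) : ℝ[X] := ∑ i ∈ range (N - k + 1),
  C ((-1) ^ i * ((N + 1 + k).choose (2 * k + 1 + i) : ℝ) / (i.factorial : ℝ)) * X ^ i

lemma Qk_coeff (N k i : ℕ) (hk : k ≤ N) : (Qk N k).coeff i =
    (-1) ^ i * ((N + 1 + k).choose (2 * k + 1 + i) : ℝ) / (i.factorial : ℝ) := by
  rw [Qk, finsetSum_coeff]
  simp only [coeff_C_mul_X_pow]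
  rw [Finset.sum_ite_eq]
  split_ifs with h
  · rfl
  · rw [mem_range, not_lt] at h
    rw [Nat.choose_eq_zero_of_lt (by omega)]
    simp

lemma h4e (a b : ℝ) (hab : a + b = 1) (N : ℕ) :
    ww a b N = ∑ k ∈ range (N + 1), C ((a * b) ^ k / (k.factorial : ℝ) ^ 2) * (X ^ (2 * k) * Qk N k) := by
  ext n
  have hL : (ww a b N).coeff n = ∑ x ∈ antidiagonal n, ∑ k ∈ range (N + 1),
      (-1) ^ n * ((N + 1 + k).choose (n + 1) : ℝ) * ((x.1.choose k : ℝ) * (x.2.choose k : ℝ) * a ^ x.1 * b ^ x.2 /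
      ((x.1.factorial : ℝ) * (x.2.factorial : ℝ))) := by
    rw [ww, finsetSum_coeff]
    simp only [coeff_mul, Lc_coeff]
    rw [Finset.sum_comm]
    refine Finset.sum_congr rfl fun x hx => ?_
    rw [HasAntidiagonal.mem_antidiagonal] at hx
    have h1 := sum_choose_mul' x.1 x.2 N
    rw [hx] at h1
    have h2 : ∀ j : ℕ, (-1 : ℝ) ^ x.1 * (j.choose x.1 : ℝ) / (x.1.factorial : ℝ) * a ^ x.1 *
        ((-1 : ℝ) ^ x.2 * (j.choose x.2 : ℝ) / (x.2.factorial : ℝ) * b ^ x.2) =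
        ((-1) ^ n * a ^ x.1 * b ^ x.2 / ((x.1.factorial : ℝ) * (x.2.factorial : ℝ))) *
          ((j.choose x.1 : ℝ) * (j.choose x.2 : ℝ)) := by
      intro j
      rw [← hx, pow_add]
      field_simp
    simp only [h2]
    rw [← Finset.mul_sum, h1, Finset.mul_sum]
    refine Finset.sum_congr rfl fun k _ => ?_
    ring
  rw [hL, Finset.sum_comm, finsetSum_coeff]
  refine Finset.sum_congr rfl fun k hk => ?_
  rw [mem_range] at hk
  rw [← Finset.mul_sum, anti a b hab, coeff_C_mul, coeff_X_pow_mul']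
  split_ifs with h
  · rw [Qk_coeff N k _ (by omega), show 2 * k + 1 + (n - 2 * k) = n + 1 by omega]
    have h3 : (-1 : ℝ) ^ n = (-1) ^ (n - 2 * k) := by
      conv_lhs => rw [show n = 2 * k + (n - 2 * k) by omega]
      rw [pow_add]; simp
    rw [h3]
    field_simp
  · simp

lemma h4g (a b : ℝ) (hab : a + b = 1) (N : ℕ) :
    Ef (X ^ 2 * ww a b N ^ 2) = ∑ k ∈ range (N + 1), ∑ l ∈ range (N + 1),
      kap N k * kap N l * ((2 * (k + l) + 2).choose (k + l + 1) : ℝ) * (a * b) ^ (k + l) := by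
  rw [h4e a b hab, sq (∑ k ∈ range (N + 1), _), Finset.sum_mul_sum, Finset.mul_sum, map_sum]
  refine Finset.sum_congr rfl fun k hk => ?_
  rw [Finset.mul_sum, map_sum]
  refine Finset.sum_congr rfl fun l hl => ?_
  rw [mem_range] at hk hl
  have h1 := double_sum N k l (by omega) (by omega)
  have h2 : X ^ 2 * (C ((a * b) ^ k / (k.factorial : ℝ) ^ 2) * (X ^ (2 * k) * Qk N k) *
      (C ((a * b) ^ l / (l.factorial : ℝ) ^ 2) * (X ^ (2 * l) * Qk N l))) =
      ((a * b) ^ k / (k.factorial : ℝ) ^ 2 * ((a * b) ^ l / (l.factorial : ℝ) ^ 2)) •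
        (∑ i ∈ range (N - k + 1), ∑ j ∈ range (N - l + 1),
          C (((-1 : ℝ) ^ i * ((N + 1 + k).choose (2 * k + 1 + i)) / (i.factorial : ℝ)) *
      ((-1 : ℝ) ^ j * ((N + 1 + l).choose (2 * l + 1 + j)) / (j.factorial : ℝ))) *
          X ^ (2 * k + 2 * l + 2 + i + j)) := by
    rw [smul_eq_C_mul, C_mul]
    have h3 : Qk N k * Qk N l = ∑ i ∈ range (N - k + 1), ∑ j ∈ range (N - l + 1),
          C (((-1 : ℝ) ^ i * ((N + 1 + k).choose (2 * k + 1 + i)) / (i.factorial : ℝ)) *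
      ((-1 : ℝ) ^ j * ((N + 1 + l).choose (2 * l + 1 + j)) / (j.factorial : ℝ))) *
          X ^ (i + j) := by
      rw [Qk, Qk, Finset.sum_mul_sum]
      refine Finset.sum_congr rfl fun i _ => Finset.sum_congr rfl fun j _ => ?_
      rw [C_mul, pow_add]; ring
    have h4 : ∑ i ∈ range (N - k + 1), ∑ j ∈ range (N - l + 1),
          C (((-1 : ℝ) ^ i * ((N + 1 + k).choose (2 * k + 1 + i)) / (i.factorial : ℝ)) *
      ((-1 : ℝ) ^ j * ((N + 1 + l).choose (2 * l + 1 + j)) / (j.factorial : ℝ))) *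
          (X : ℝ[X]) ^ (2 * k + 2 * l + 2 + i + j) = X ^ (2 * k + 2 * l + 2) * (Qk N k * Qk N l) := by
      rw [h3, Finset.mul_sum]
      refine Finset.sum_congr rfl fun i _ => ?_
      rw [Finset.mul_sum]
      refine Finset.sum_congr rfl fun j _ => ?_
      ring
    rw [h4]
    ring
  rw [h2, map_smul, smul_eq_mul, map_sum]
  simp only [map_sum, Ef_mono]
  rw [h1, kap, kap]
  have h5 : (-1 : ℝ) ^ (k + l) = (-1) ^ (N + k) * (-1) ^ (N + l) := by
    have h5' : (-1 : ℝ) ^ (2 * N + (k + l)) = (-1) ^ (k + l) := by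
      rw [pow_add, pow_mul]; simp
    rw [← pow_add, show N + k + (N + l) = 2 * N + (k + l) by ring, h5']
  rw [h5]
  have h6 : (k.factorial : ℝ) ≠ 0 := by positivity
  have h7 : (l.factorial : ℝ) ≠ 0 := by positivity
  have h8 : ((N - k).factorial : ℝ) ≠ 0 := by positivity
  have h9 : ((N - l).factorial : ℝ) ≠ 0 := by positivity
  rw [pow_add (a * b)]
  field_simp

end

end Pool.Agent.R662.PZ
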